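import Pool.Agent.J4H12.PZ.Stm

set_option autoImplicit false

open MeasureTheory Set Filter Topology Metric
open scoped Pointwise RealInnerProductSpace ENNReal

namespace Pool.Agent.J4H12.PZ

open Pool.Agent.H638.IB

theorem g_nonneg {L : ℕ} (p t : ℝ) (q : ℝ × E (L + 1)) : 0 ≤ g p t q := le_max_left _ _

theorem t_LIM (hINT : S_INT) : S_LIM := by
  intro L N N1 N2 δ C hN p
  obtain ⟨hI, -⟩ := hINT L N N1 N2 δ C hN 0 le_rfl hN.pos.le
  refine tendsto_integral_filter_of_dominated_convergence (fun q => ee N 0 p 0 q) ?_ ?_ (hI p 0) ?_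
  · have h1 : ∀ᶠ κ : ℝ in 𝓝[>] 0, κ ≤ δ := mem_nhdsWithin_of_mem_nhds (Iic_mem_nhds hN.pos)
    filter_upwards [h1, self_mem_nhdsWithin] with κ hκ hκ0
    have hκ0 : (0 : ℝ) < κ := hκ0
    exact ((hINT L N N1 N2 δ C hN κ hκ0.le hκ).1 p 0).aestronglyMeasurable
  · filter_upwards [self_mem_nhdsWithin] with κ hκ0
    have hκ0 : (0 : ℝ) < κ := hκ0
    refine Eventually.of_forall fun q => ?_
    rw [Real.norm_eq_abs, ee, Real.abs_exp, ee]
    refine Real.exp_le_exp.2 ?_
    have := mul_nonneg hκ0.le (g_nonneg p 0 q)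
    linarith
  · refine Eventually.of_forall fun q => ?_
    have h1 : Continuous (fun κ : ℝ => ee N κ p 0 q) := by
      unfold ee
      fun_prop
    exact (h1.tendsto 0).mono_left nhdsWithin_le_nhds

end Pool.Agent.J4H12.PZ
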