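import Pool.Agent.J4H12.PZ.Stm

set_option autoImplicit false

open MeasureTheory Set Filter Topology Metric
open scoped Pointwise RealInnerProductSpace ENNReal

namespace Pool.Agent.J4H12.PZ

open Pool.Agent.H638.IB

/-- Pointwise limits of quadratic polynomials. -/
theorem quad_lim {F : ℝ → ℝ → ℝ} {f : ℝ → ℝ} {l : Filter ℝ} [l.NeBot]
    (h : ∀ᶠ κ in l, ∃ c₀ c₁ c₂ : ℝ, ∀ p : ℝ, p ≠ 0 → p ≠ -1 → F κ p = c₀ + c₁ * p + c₂ * p ^ 2)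
    (hF : ∀ p, Tendsto (fun κ => F κ p) l (𝓝 (f p))) :
    ∃ c₀ c₁ c₂ : ℝ, ∀ p : ℝ, p ≠ 0 → p ≠ -1 → f p = c₀ + c₁ * p + c₂ * p ^ 2 := by
  refine ⟨3 * f 1 - 3 * f 2 + f 3, -(5 / 2) * f 1 + 4 * f 2 - (3 / 2) * f 3,
    f 1 / 2 - f 2 + f 3 / 2, fun p hp0 hp1 => ?_⟩
  have h1 : Tendsto (fun κ => (3 * F κ 1 - 3 * F κ 2 + F κ 3) +
      (-(5 / 2) * F κ 1 + 4 * F κ 2 - (3 / 2) * F κ 3) * p +
      (F κ 1 / 2 - F κ 2 + F κ 3 / 2) * p ^ 2) l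
      (𝓝 ((3 * f 1 - 3 * f 2 + f 3) + (-(5 / 2) * f 1 + 4 * f 2 - (3 / 2) * f 3) * p +
        (f 1 / 2 - f 2 + f 3 / 2) * p ^ 2)) := by
    have a1 := hF 1
    have a2 := hF 2
    have a3 := hF 3
    exact ((((a1.const_mul 3).sub (a2.const_mul 3)).add a3).add
      (((((a1.const_mul _).add (a2.const_mul 4)).sub (a3.const_mul _))).mul_const p)).add
      ((((a1.div_const 2).sub a2).add (a3.div_const 2)).mul_const (p ^ 2))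
  refine tendsto_nhds_unique ((hF p).congr' ?_) h1
  filter_upwards [h] with κ hκ
  obtain ⟨c₀, c₁, c₂, h2⟩ := hκ
  rw [h2 p hp0 hp1, h2 1 (by norm_num) (by norm_num), h2 2 (by norm_num) (by norm_num),
    h2 3 (by norm_num) (by norm_num)]
  ring

theorem cons_span {L k : ℕ} {a : Fin k → E (L + 3)} (τ : ℝ)
    (ha : ∀ x, x ≠ 0 → ∃ i, ⟪a i, x⟫ ≠ 0) :
    ∀ x, x ≠ 0 → ∃ i, ⟪(Fin.cons (τ • e0 L) a : Fin (k + 1) → E (L + 3)) i, x⟫ ≠ 0 := by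
  intro x hx
  obtain ⟨i, hi⟩ := ha x hx
  exact ⟨i.succ, by simpa using hi⟩

theorem Nf_zero {L k : ℕ} (a : Fin k → E (L + 3)) {m : ℕ} (hm : 2 ≤ m) (δ : ℝ) :
    Nf (Fin.cons ((0 : ℝ) • e0 L) a : Fin (k + 1) → E (L + 3)) m δ = Nf a m δ := by
  funext x
  unfold Nf
  rw [Fin.sum_univ_succ]
  simp only [Fin.cons_zero, Fin.cons_succ, zero_smul, inner_zero_left]
  rw [zero_pow (by omega), zero_add]

theorem t_MAIN (hNICE : S_NICE) (hBODY : S_BODY) (hNEAR : S_NEAR) (hPOLY : S_POLY) (hLIM : S_LIM)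
    (hINT : S_INT) (hEND : S_END) : S_MAIN := by
  intro L k a m δ hm hδ ha ε hε hε1
  by_contra hcon
  push Not at hcon
  obtain ⟨η, hη, hηδ, hnear⟩ := hNEAR L k a m δ (by omega) hδ ha ε hε hε1
  have key : ∀ τ : ℝ, 0 ≤ τ → τ ≤ η → ∃ c₀ c₁ c₂ : ℝ, ∀ p : ℝ, p ≠ 0 → p ≠ -1 →
      (AA (Nf (Fin.cons (τ • e0 L) a : Fin (k + 1) → E (L + 3)) m δ) 0 p 0)⁻¹ ^ 2 =
        c₀ + c₁ * p + c₂ * p ^ 2 := by
    intro τ hτ hτη
    obtain ⟨N1, N2, C, hN⟩ := hNICE L (k + 1) (Fin.cons (τ • e0 L) a) m δ (by omega) hδ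
      (cons_span τ ha)
    refine quad_lim (F := fun κ p =>
      (AA (Nf (Fin.cons (τ • e0 L) a : Fin (k + 1) → E (L + 3)) m δ) κ p 0)⁻¹ ^ 2)
      (l := 𝓝[>] 0) ?_ ?_
    · have h1 : ∀ᶠ κ : ℝ in 𝓝[>] 0, κ ≤ η :=
        mem_nhdsWithin_of_mem_nhds (Iic_mem_nhds hη)
      filter_upwards [h1, self_mem_nhdsWithin] with κ hκη hκ
      have hκ : (0 : ℝ) < κ := hκ
      refine hPOLY L _ N1 N2 δ C hN κ hκ (hκη.trans hηδ) ?_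
      obtain ⟨h2, h3⟩ := hnear τ κ hτ hτη hκ.le hκη
      by_contra hPZ
      exact hcon _ (hBODY L _ N1 N2 δ C hN κ hκ.le (hκη.trans hηδ)) hPZ h2 h3
    · intro p
      have h1 := hLIM L _ N1 N2 δ C hN p
      obtain ⟨-, -, -, hpos, -⟩ := hINT L _ N1 N2 δ C hN 0 le_rfl hδ.le
      exact (h1.inv₀ (hpos p 0).ne').pow 2
  have k0 := key 0 le_rfl hη.le
  rw [Nf_zero a hm δ] at k0
  exact hEND L k a m δ η hm hδ hη ha k0 (key η hη.le le_rfl)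

end Pool.Agent.J4H12.PZ
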