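import Pool.Agent.J4H12.PZ.Stm

set_option autoImplicit false

open MeasureTheory Set Filter Topology Metric
open scoped Pointwise RealInnerProductSpace ENNReal

namespace Pool.Agent.J4H12.PZ

open Pool.Agent.H638.IB

theorem mk_ne {L : ℕ} (p t : ℝ) : (mk 1 (mk p (mk t 0)) : E (L + 3)) ≠ 0 := by
  intro h
  have := congrArg (fun v : E (L + 3) => v 0) h
  simp [H638.IB.mk] at this

theorem abs_sign_le (M : Measure (ℝ × ℝ)) [IsFiniteMeasure M] (p : ℝ) {t : ℝ} (ht : 0 ≤ t) :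
    |∫ y : ℝ × ℝ, SignType.sign (y.1 + p * y.2) * max (t - |y.1 + p * y.2|) 0 ∂M| ≤
      ∫ y : ℝ × ℝ, max (t - |y.1 + p * y.2|) 0 ∂M := by
  have hc : Continuous (fun y : ℝ × ℝ => max (t - |y.1 + p * y.2|) 0) := by fun_prop
  have hi : Integrable (fun y : ℝ × ℝ => max (t - |y.1 + p * y.2|) 0) M := by
    refine Integrable.of_bound hc.aestronglyMeasurable t (Eventually.of_forall fun y => ?_)
    rw [Real.norm_eq_abs, abs_of_nonneg (le_max_right _ _)]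
    exact max_le (by linarith [abs_nonneg (y.1 + p * y.2)]) ht
  rw [← Real.norm_eq_abs]
  refine norm_integral_le_of_norm_le hi (Eventually.of_forall fun y => ?_)
  rw [norm_mul, Real.norm_eq_abs, Real.norm_eq_abs,
    abs_of_nonneg (le_max_right (t - |y.1 + p * y.2|) 0)]
  refine mul_le_of_le_one_left (le_max_right _ _) ?_
  rcases lt_trichotomy (y.1 + p * y.2) 0 with h | h | h
  · simp [sign_neg h]
  · simp [h]
  · simp [sign_pos h]

theorem t_POLY (hGAU : S_GAU) (hINT : S_INT) (hPP : S_PP) (hHH : S_HH) (hMU : S_MU) (hV7 : S_V7)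
    (hV8 : S_V8) : S_POLY := by
  intro L N N1 N2 δ C hN κ hκ hκδ hPZ
  obtain ⟨μ, hμ, hμs, hμ1⟩ := hPZ
  obtain ⟨c, hc, hA⟩ := hGAU L
  obtain ⟨M, hM, β, hMβ⟩ := hMU L μ hμ hμs
  obtain ⟨-, -, -, hpos, hbd, -, hcont, hCN⟩ := hINT L N N1 N2 δ C hN κ hκ.le hκδ
  obtain ⟨hP1, hP2⟩ := hPP L N N1 N2 δ C hN κ hκ.le hκδ
  obtain ⟨hE, hO⟩ := hHH (fun p t => AA N κ p t) c⁻¹ (κ * CN N) (inv_pos.2 hc) hpos hbd hP1 hP2
  -- the norm
  have hH : ∀ p t : ℝ, (∫ v, |⟪(mk 1 (mk p (mk t 0)) : E (L + 3)), v⟫| ∂μ) = c⁻¹ / AA N κ p t := by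
    intro p t
    have h1 := hμ1 _ (mk_ne p t)
    rw [hA N N1 N2 δ C hN κ hκ.le hκδ p t] at h1
    have h2 := hpos p t
    rw [eq_div_iff h2.ne']
    field_simp
    linarith
  simp only [hH] at hMβ
  -- (E)
  have hMe : HypE M := by
    intro T hT h0 h1
    obtain ⟨C₀, δ₀, hδ₀, h2⟩ := hE T hT h0 h1
    refine ⟨C₀ / 2, δ₀, hδ₀, fun p hp t ht htδ => ?_⟩
    rw [(hMβ p t ht.le).1]
    have h3 := h2 p hp t ht htδ
    have h4 := le_abs_self (c⁻¹ / AA N κ p t + c⁻¹ / AA N κ p (-t) - 2 * (c⁻¹ / AA N κ p 0))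
    have h5 := h4.trans h3
    linarith
  -- (O)
  have hMo : HypO M (fun p => -(c⁻¹ * (κ * CN N) / (4 * p * (1 + p) * AA N κ p 0 ^ 2))) := by
    intro p hp0 hp1
    have hT : IsCompact ({p} : Set ℝ) := isCompact_singleton
    obtain ⟨C₀, δ₀, hδ₀, h2⟩ := hMe {p} hT (by simpa using hp0.symm) (by simpa using hp1.symm)
    have h3 := hO p hp0 hp1 (β p) C₀ δ₀ hδ₀ (fun t ht htδ => by
      rw [← (hMβ p t ht.le).2]
      refine le_trans ?_ (h2 p rfl t ht htδ)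
      exact abs_sign_le M p ht.le)
    refine h3.congr' ?_
    filter_upwards [self_mem_nhdsWithin] with t ht
    have ht : (0 : ℝ) < t := ht
    rw [(hMβ p t ht.le).2]
  have hJc : ContinuousOn (fun p => -(c⁻¹ * (κ * CN N) / (4 * p * (1 + p) * AA N κ p 0 ^ 2)))
      {p | p ≠ 0 ∧ p ≠ -1} := by
    refine ContinuousOn.neg (ContinuousOn.div continuousOn_const ?_ ?_)
    · exact (((continuous_const.mul continuous_id).mul (continuous_const.add continuous_id)).mul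
        (hcont.pow 2)).continuousOn
    · rintro p ⟨hp0, hp1⟩
      have h1 : (1 + p) ≠ 0 := fun h => hp1 (by linarith)
      exact mul_ne_zero (mul_ne_zero (mul_ne_zero four_ne_zero hp0) h1)
        (pow_ne_zero 2 (hpos p 0).ne')
  obtain ⟨c₀, c₁, c₂, h8⟩ := hV8 _ hJc (hV7 M _ hM hMe hMo hJc)
  have hZ : c⁻¹ * (κ * CN N) ≠ 0 := mul_ne_zero (inv_ne_zero hc.ne') (mul_ne_zero hκ.ne' hCN.ne')
  set Z := c⁻¹ * (κ * CN N) with hZdef
  refine ⟨-(4 / Z) * c₁, -(4 / Z) * (c₀ + c₁ + c₂), -(4 / Z) * c₀, fun p hp0 hp1 => ?_⟩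
  have h9 := h8 p hp0 hp1
  have h10 : (1 + p) ≠ 0 := fun h => hp1 (by linarith)
  have h11 : (p + 1) ≠ 0 := fun h => hp1 (by linarith)
  have h12 := (hpos p 0).ne'
  have h13 : (AA N κ p 0)⁻¹ ^ 2 = -(4 / Z) * (p * (p + 1)) * (c₀ + c₁ / p + c₂ / (p + 1)) := by
    rw [← h9]
    field_simp
    try ring
  rw [h13]
  field_simp
  ring

end Pool.Agent.J4H12.PZ
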