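import Pool.Agent.J4H12.PZ.Stm

set_option autoImplicit false

open MeasureTheory Set Filter Topology Metric
open scoped Pointwise RealInnerProductSpace ENNReal

namespace Pool.Agent.J4H12.PZ

open Pool.Agent.H638.IB

theorem small_t {κ δ : ℝ} (hκ : 0 ≤ κ) (hκδ : κ ≤ δ) {t : ℝ} (ht : |t| ≤ 1 / 2) :
    κ * |t| ≤ δ / 2 := by
  have := mul_le_mul hκδ ht (abs_nonneg t) (hκ.trans hκδ)
  linarith

theorem t_PP (hINT : S_INT) (hPA : S_PA) (hPB : S_PB) (hPC : S_PC) : S_PP := by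
  intro L N N1 N2 δ C hN κ hκ hκδ
  obtain ⟨hI1, hI2, hI3, -⟩ := hINT L N N1 N2 δ C hN κ hκ hκδ
  obtain ⟨hA1, hA2, hA3⟩ := hPA L N N1 N2 δ C hN κ hκ hκδ
  obtain ⟨hB1, hB2⟩ := hPB L N N1 N2 δ C hN κ hκ hκδ
  have key : ∀ p t : ℝ, |t| ≤ 1 / 2 →
      AA N κ p t - AA N κ p 0 - (∫ q : ℝ × E (L + 1), ed N N1 κ p q) * t =
      (∫ q : ℝ × E (L + 1), (et N κ p t q - ee N κ p 0 q - t * ed N N1 κ p q)) +
      ∫ q : ℝ × E (L + 1), (ee N κ p t q - et N κ p t q) := by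
    intro p t ht
    have h1 := hI2 p t (small_t hκ hκδ ht)
    have h2 : Integrable (fun q : ℝ × E (L + 1) => et N κ p t q - ee N κ p 0 q) :=
      h1.sub (hI1 p 0)
    rw [integral_sub h2 ((hI3 p).const_mul t), integral_sub h1 (hI1 p 0),
      integral_sub (hI1 p t) h1, integral_const_mul, AA, AA]
    ring
  have hev : ∀ᶠ t : ℝ in 𝓝 0, |t| ≤ 1 / 2 := by
    have : Tendsto (fun t : ℝ => |t|) (𝓝 0) (𝓝 0) := by
      simpa using (continuous_abs.tendsto (0 : ℝ))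
    exact this.eventually (ge_mem_nhds (by norm_num))
  refine ⟨fun p hp0 hp1 => ?_, fun T hT hT0 hT1 => ?_⟩
  · obtain ⟨γ, hγ⟩ := hA1 p
    obtain ⟨hb1, hb2⟩ := hB1 p hp0 hp1
    have hc := hPC p hp0 hp1
    have hne : (1 + p) ≠ 0 := fun h => hp1 (by linarith)
    refine ⟨∫ q : ℝ × E (L + 1), ed N N1 κ p q,
      γ - κ * CN N * (((∫ x, bb p 1 x) + ∫ x, bb p (-1) x) / 2), ?_, ?_⟩
    · have h1 := (hγ.mono_left (nhdsWithin_mono 0 (fun x (hx : (0:ℝ) < x) => hx.ne'))).add hb1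
      have e : γ + -κ * CN N * (∫ x, bb p 1 x) =
          γ - κ * CN N * (((∫ x, bb p 1 x) + ∫ x, bb p (-1) x) / 2) -
            κ * CN N / (4 * p * (1 + p)) := by
        have h2 : (∫ x, bb p 1 x) = (∫ x, bb p (-1) x) + 1 / (2 * p * (1 + p)) := by linarith
        rw [h2]
        field_simp
        ring
      rw [e] at h1
      refine h1.congr' ?_
      filter_upwards [mem_nhdsWithin_of_mem_nhds hev] with t ht
      rw [key p t ht]
      ring
    · have h1 := (hγ.mono_left (nhdsWithin_mono 0 (fun x (hx : x < (0:ℝ)) => hx.ne))).add hb2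
      have e : γ + -κ * CN N * (∫ x, bb p (-1) x) =
          γ - κ * CN N * (((∫ x, bb p 1 x) + ∫ x, bb p (-1) x) / 2) +
            κ * CN N / (4 * p * (1 + p)) := by
        have h2 : (∫ x, bb p 1 x) = (∫ x, bb p (-1) x) + 1 / (2 * p * (1 + p)) := by linarith
        rw [h2]
        field_simp
        ring
      rw [e] at h1
      refine h1.congr' ?_
      filter_upwards [mem_nhdsWithin_of_mem_nhds hev] with t ht
      rw [key p t ht]
      ring
  · obtain ⟨R, hR⟩ := hT.isBounded.exists_norm_le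
    obtain ⟨C₁, δ₁, hδ₁, h1⟩ := hA2 R
    obtain ⟨C₂, h2⟩ := hA3 R
    obtain ⟨C₃, δ₃, hδ₃, h3⟩ := hB2 T hT hT0 hT1
    refine ⟨max (C₁ + C₃) C₂, min (min δ₁ δ₃) (1 / 2), lt_min (lt_min hδ₁ hδ₃) (by norm_num),
      fun p hp => ⟨∫ q : ℝ × E (L + 1), ed N N1 κ p q, ?_, fun t ht => ?_⟩⟩
    · exact (h2 p (hR p hp)).trans (le_max_right _ _)
    · have ht1 : |t| ≤ δ₁ := ht.trans ((min_le_left _ _).trans (min_le_left _ _))
      have ht3 : |t| ≤ δ₃ := ht.trans ((min_le_left _ _).trans (min_le_right _ _))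
      rw [key p t (ht.trans (min_le_right _ _))]
      refine (abs_add_le _ _).trans ?_
      have h4 := h1 p (hR p hp) t ht1
      have h5 := h3 p hp t ht3
      have h6 := mul_le_mul_of_nonneg_right (le_max_left (C₁ + C₃) C₂) (sq_nonneg t)
      linarith

end Pool.Agent.J4H12.PZ
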