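import Pool.Agent.J4H12.PZ.Stm

set_option autoImplicit false

open MeasureTheory Set Filter Topology Metric
open scoped Pointwise RealInnerProductSpace ENNReal

namespace Pool.Agent.J4H12.PZ

open Pool.Agent.H638.IB

/-- A convex body from a body. -/
def toCB {n : ℕ} (K : Set (E n)) (hK : Body K) : ConvexBody (E n) where
  carrier := K
  convex' := hK.convex
  isCompact' := hK.compact
  nonempty' := hK.int.mono interior_subset

theorem toCB_coe {n : ℕ} (K : Set (E n)) (hK : Body K) : (toCB K hK : Set (E n)) = K := rfl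

theorem body_of {n : ℕ} (K : ConvexBody (E n)) (hs : ∀ x ∈ (K : Set (E n)), -x ∈ (K : Set (E n)))
    (hi : (interior (K : Set (E n))).Nonempty) : Body (K : Set (E n)) :=
  ⟨K.isCompact, K.convex, hi, hs⟩

theorem int_of {n : ℕ} {K K' : Set (E n)} {δ : ℝ} (hδ : δ < 1) (hK : (interior K).Nonempty)
    (h : (1 - δ) • K ⊆ K') : (interior K').Nonempty := by
  have h1 : (1 - δ) ≠ 0 := by linarith
  have h2 : (interior ((1 - δ) • K)).Nonempty := by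
    rw [interior_smul₀ h1]
    exact hK.smul_set
  exact h2.mono (interior_mono h)

theorem t_RES (hHOM : S_HOM) (hHAUS : S_HAUS) (hCLO : S_CLO) (hTH1 : S_TH1) (hTH2 : S_TH2)
    (hTH3 : S_TH3) (hDEN : S_DEN) (hNICE : S_NICE) (hBODY : S_BODY) (hMAIN : S_MAIN) : S_RES := by
  intro n hn
  obtain ⟨L, rfl⟩ : ∃ L, n = L + 3 := ⟨n - 3, by omega⟩
  let T := {K : ConvexBody (EuclideanSpace ℝ (Fin (L + 3))) //
    ∀ x ∈ (K : Set (EuclideanSpace ℝ (Fin (L + 3)))),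
      -x ∈ (K : Set (EuclideanSpace ℝ (Fin (L + 3))))}
  let D : Set T := {K | (interior (K.1 : Set (E (L + 3)))).Nonempty ∧ ¬ PZ (K.1 : Set (E (L + 3)))}
  have hopen : IsOpen D := by
    rw [Metric.isOpen_iff]
    rintro K ⟨hKi, hKp⟩
    by_contra hcon
    push Not at hcon
    apply hKp
    refine hCLO (L + 2) (by omega) _ (body_of K.1 K.2 hKi) fun δ hδ hδ1 => ?_
    obtain ⟨ε, hε, h1⟩ := hTH1 (L + 3) K.1 K.2 hKi δ hδ hδ1
    obtain ⟨K', hK', hK'D⟩ := not_subset.1 (hcon ε hε)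
    have hd : dist K'.1 K.1 < ε := hK'
    obtain ⟨h2, h3⟩ := h1 K'.1 hd
    have h4 : (interior (K'.1 : Set (E (L + 3)))).Nonempty := int_of hδ1 hKi h2
    refine ⟨_, body_of K'.1 K'.2 h4, ?_, h2, h3⟩
    by_contra h5
    exact hK'D ⟨h4, h5⟩
  have hdense : Dense D := by
    rw [Metric.dense_iff]
    intro K ε hε
    obtain ⟨K1, hK1s, hK1i, hd1⟩ := hTH3 (L + 3) K.1 K.2 (ε / 3) (by linarith)
    obtain ⟨δ1, hδ1, hδ1', hT1⟩ := hTH2 (L + 3) K1 hK1s (ε / 3) (by linarith)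
    obtain ⟨k, a, m, δ', hm, hδ', ha, h1, h2⟩ :=
      hDEN L _ (body_of K1 hK1s hK1i) δ1 hδ1 hδ1'
    obtain ⟨N1, N2, C, hN⟩ := hNICE L k a m δ' (by omega) hδ' ha
    have hB : Body {x | Nf a m δ' x ≤ 1} := by
      have := hBODY L _ N1 N2 δ' C hN 0 le_rfl hδ'.le
      simpa [Kb] using this
    have hd2 : dist (toCB _ hB) K1 < ε / 3 := hT1 (toCB _ hB) h1 h2
    obtain ⟨δ2, hδ2, hδ2', hT2⟩ := hTH2 (L + 3) (toCB _ hB) hB.neg (ε / 3) (by linarith)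
    obtain ⟨K3, hK3, hK3p, h3, h4⟩ := hMAIN L k a m δ' hm hδ' ha δ2 hδ2 hδ2'
    have hd3 : dist (toCB _ hK3) (toCB _ hB) < ε / 3 := hT2 (toCB _ hK3) h3 h4
    refine ⟨⟨toCB _ hK3, hK3.neg⟩, ?_, hK3.int, hK3p⟩
    show dist (toCB _ hK3) K.1 < ε
    calc dist (toCB _ hK3) K.1 ≤ dist (toCB _ hK3) (toCB _ hB) + dist (toCB _ hB) K1 +
        dist K1 K.1 := dist_triangle4 _ _ _ _
      _ < ε := by linarith
  refine mem_of_superset (residual_of_dense_open hopen hdense) ?_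
  rintro K ⟨hKi, hKp⟩ ⟨μ, hμ, hμs, hμ1⟩
  apply hKp
  obtain ⟨c, hc, hc1⟩ := hHAUS (L + 2) (by omega)
  refine ⟨ENNReal.ofReal c • μ, ?_, ?_, fun u hu => ?_⟩
  · constructor
    rw [Measure.smul_apply, smul_eq_mul]
    exact ENNReal.mul_lt_top ENNReal.ofReal_lt_top (measure_lt_top μ _)
  · rw [Measure.smul_apply, hμs, smul_zero]
  · rw [integral_smul_measure, ENNReal.toReal_ofReal hc.le, smul_eq_mul]
    have hu0 : 0 < ‖u‖ := norm_pos_iff.2 hu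
    have hu1 : ‖(‖u‖⁻¹ • u : E (L + 3))‖ = 1 := by
      rw [norm_smul, norm_inv, norm_norm, inv_mul_cancel₀ hu0.ne']
    have h1 := hμ1 (‖u‖⁻¹ • u) hu1
    have h2 := hc1 (K.1 : Set (E (L + 3))) (body_of K.1 K.2 hKi) (‖u‖⁻¹ • u) hu1
    have h3 : (((L + 2 + 1 : ℕ) : ℝ) - 1) = (((L + 3 : ℕ) : ℝ) - 1) := rfl
    rw [h3] at h2
    rw [h2] at h1
    have h4 : A (K.1 : Set (E (L + 3))) (‖u‖⁻¹ • u) =
        secVol (K.1 : Set (E (L + 3))) (‖u‖⁻¹ • u) := by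
      rw [A, hu1, div_one]
    have h5 := (hHOM (K.1 : Set (E (L + 3)))).1 ‖u‖⁻¹ u (inv_ne_zero hu0.ne')
    rw [h4, abs_inv, abs_norm, inv_inv] at h5
    have h6 : (∫ v, |inner ℝ (‖u‖⁻¹ • u) v| ∂μ) = ‖u‖⁻¹ * ∫ v, |⟪u, v⟫| ∂μ := by
      rw [← integral_const_mul]
      congr 1
      funext v
      rw [real_inner_smul_left, abs_mul, abs_inv, abs_norm]
    rw [h5, h6] at h1
    rw [← h1]
    field_simp

end Pool.Agent.J4H12.PZ
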