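import Pool.Agent.H638.IB.Defs

/-!
# Project PZ (frozen statement S12949): statements

`n = L + 3`.  `E n`, `Body`, `secVol`, `A`, `vol`, `mk`, `S_GB`, `S_MP`, `S_HSEC`, ... are those of
`Pool.Agent.H638.IB.Defs` (all `S_X` of that file are proved in `Pool.Agent.H638.IB.Final`, as
`X_final`).
-/

set_option autoImplicit false

open MeasureTheory Set Filter Topology Metric
open scoped Pointwise RealInnerProductSpace ENNReal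

namespace Pool.Agent.J4H12.PZ

open Pool.Agent.H638.IB

/-! ### Definitions -/

/-- The intersection body of `K` is the polar of a zonoid. -/
def PZ {n : ℕ} (K : Set (E n)) : Prop :=
  ∃ μ : Measure (E n), IsFiniteMeasure μ ∧ μ (sphere (0 : E n) 1)ᶜ = 0 ∧
    ∀ u : E n, u ≠ 0 → A K u * (∫ v, |⟪u, v⟫| ∂μ) = 1

/-- The first basis vector of `E (L + 3)`. -/
noncomputable def e0 (L : ℕ) : E (L + 3) := mk 1 0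

/-- The explicit functions. -/
noncomputable def Nf {n k : ℕ} (a : Fin k → E n) (m : ℕ) (δ : ℝ) (x : E n) : ℝ :=
  (∑ i, ⟪a i, x⟫ ^ (2 * m)) ^ ((m : ℝ)⁻¹) + δ * ‖x‖ ^ 2

/-- Functions `N` (squares of norms) with first and second derivatives `N1`, `N2` in the direction
of the first basis vector. -/
structure Nice {L : ℕ} (N N1 N2 : E (L + 3) → ℝ) (δ C : ℝ) : Prop where
  cont : Continuous N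
  hom : ∀ (c : ℝ) x, N (c • x) = c ^ 2 * N x
  pos : 0 < δ
  lower : ∀ x, δ * ‖x‖ ^ 2 ≤ N x
  upper : ∀ x, N x ≤ C * ‖x‖ ^ 2
  conv : ConvexOn ℝ univ (fun x => N x - δ * ‖x‖ ^ 2)
  d1 : ∀ x, x ≠ 0 → HasDerivAt (fun τ : ℝ => N (x + τ • e0 L)) (N1 x) 0
  d2 : ∀ x, x ≠ 0 → HasDerivAt (fun τ : ℝ => N1 (x + τ • e0 L)) (N2 x) 0
  b1 : ∀ x, x ≠ 0 → |N1 x| ≤ C * ‖x‖
  b2 : ∀ x, x ≠ 0 → |N2 x| ≤ C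
  c1 : ContinuousOn N1 {0}ᶜ
  c2 : ContinuousOn N2 {0}ᶜ

/-- The singular term. -/
noncomputable def G {L : ℕ} (x : E (L + 3)) : ℝ := max 0 (max (x 2 * x 0) (x 2 * x 1))

/-- The bodies. -/
def Kb {L : ℕ} (N : E (L + 3) → ℝ) (κ : ℝ) : Set (E (L + 3)) := {x | N x + κ * G x ≤ 1}

/-- The coordinates of the hyperplane orthogonal to `(1, p, t, 0, ..., 0)`; `q = (r, z)`,
`z 0 = s`. -/
noncomputable def X {L : ℕ} (p t : ℝ) (q : ℝ × E (L + 1)) : E (L + 3) :=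
  mk (-(p * q.1 + t * q.2 0)) (mk q.1 q.2)

/-- The singular term on the hyperplane. -/
noncomputable def g {L : ℕ} (p t : ℝ) (q : ℝ × E (L + 1)) : ℝ :=
  max 0 (max (-(q.2 0 * (p * q.1 + t * q.2 0))) (q.2 0 * q.1))

open Classical in
/-- The derivative of `g` in `t` at `t = 0` (for `q.1 ≠ 0`). -/
noncomputable def gd {L : ℕ} (p : ℝ) (q : ℝ × E (L + 1)) : ℝ :=
  if max 0 (q.2 0 * q.1) < -(q.2 0 * (p * q.1)) then -(q.2 0) ^ 2 else 0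

/-- The integrand. -/
noncomputable def ee {L : ℕ} (N : E (L + 3) → ℝ) (κ p t : ℝ) (q : ℝ × E (L + 1)) : ℝ :=
  Real.exp (-N (X p t q) - κ * g p t q)

/-- The integrand with `g` linearised in `t`. -/
noncomputable def et {L : ℕ} (N : E (L + 3) → ℝ) (κ p t : ℝ) (q : ℝ × E (L + 1)) : ℝ :=
  Real.exp (-N (X p t q) - κ * (g p 0 q + t * gd p q))

/-- The derivative of `et` in `t` at `t = 0`. -/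
noncomputable def ed {L : ℕ} (N N1 : E (L + 3) → ℝ) (κ p : ℝ) (q : ℝ × E (L + 1)) : ℝ :=
  Real.exp (-N (X p 0 q) - κ * g p 0 q) * (q.2 0 * N1 (X p 0 q) - κ * gd p q)

/-- The section function. -/
noncomputable def AA {L : ℕ} (N : E (L + 3) → ℝ) (κ p t : ℝ) : ℝ :=
  ∫ q : ℝ × E (L + 1), ee N κ p t q

/-- The constant of the singular term. -/
noncomputable def CN {L : ℕ} (N : E (L + 3) → ℝ) : ℝ :=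
  ∫ z : E (L + 1), |z 0| ^ 3 * Real.exp (-N (mk 0 (mk 0 z)))

open Classical in
/-- The profile of the singular term, `σ = 1` or `σ = -1`. -/
noncomputable def bb (p σ x : ℝ) : ℝ :=
  max 0 (max (-(p * x) - σ) x) - max 0 (max (-(p * x)) x) + (if max 0 x < -(p * x) then σ else 0)

/-! ### Topology -/

/-- HAUS: Hausdorff measure of sections. -/
def S_HAUS : Prop := ∀ N : ℕ, 1 ≤ N → ∃ c : ℝ, 0 < c ∧ ∀ K : Set (E (N + 1)), Body K →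
  ∀ u : E (N + 1), ‖u‖ = 1 →
    (Measure.hausdorffMeasure (((N + 1 : ℕ) : ℝ) - 1) (K ∩ {x | inner ℝ u x = 0})).toReal =
      c * secVol K u

/-- CLO: closedness (weak compactness of the measures and continuity of the sections). -/
def S_CLO : Prop := ∀ (N : ℕ), 1 ≤ N → ∀ K : Set (E (N + 1)), Body K →
  (∀ δ : ℝ, 0 < δ → δ < 1 → ∃ K' : Set (E (N + 1)), Body K' ∧ PZ K' ∧
    (1 - δ) • K ⊆ K' ∧ K' ⊆ (1 + δ) • K) → PZ K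

/-- TH1: Hausdorff neighbourhoods of a body are small. -/
def S_TH1 : Prop := ∀ (n : ℕ) (K : ConvexBody (E n)), (∀ x ∈ (K : Set (E n)), -x ∈ (K : Set (E n))) →
  (interior (K : Set (E n))).Nonempty → ∀ δ : ℝ, 0 < δ → δ < 1 → ∃ ε : ℝ, 0 < ε ∧
    ∀ K' : ConvexBody (E n), dist K' K < ε →
      (1 - δ) • (K : Set (E n)) ⊆ (K' : Set (E n)) ∧ (K' : Set (E n)) ⊆ (1 + δ) • (K : Set (E n))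

/-- TH2: the converse. -/
def S_TH2 : Prop := ∀ (n : ℕ) (K : ConvexBody (E n)), (∀ x ∈ (K : Set (E n)), -x ∈ (K : Set (E n))) →
  ∀ ε : ℝ, 0 < ε → ∃ δ : ℝ, 0 < δ ∧ δ < 1 ∧ ∀ K' : ConvexBody (E n),
    (1 - δ) • (K : Set (E n)) ⊆ (K' : Set (E n)) → (K' : Set (E n)) ⊆ (1 + δ) • (K : Set (E n)) →
      dist K' K < ε

/-- TH3: bodies with interior points are dense. -/
def S_TH3 : Prop := ∀ (n : ℕ) (K : ConvexBody (E n)), (∀ x ∈ (K : Set (E n)), -x ∈ (K : Set (E n))) →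
  ∀ ε : ℝ, 0 < ε → ∃ K' : ConvexBody (E n), (∀ x ∈ (K' : Set (E n)), -x ∈ (K' : Set (E n))) ∧
    (interior (K' : Set (E n))).Nonempty ∧ dist K' K < ε

/-- DEN: the explicit bodies are dense. -/
def S_DEN : Prop := ∀ (L : ℕ) (K : Set (E (L + 3))), Body K → ∀ δ : ℝ, 0 < δ → δ < 1 →
  ∃ (k : ℕ) (a : Fin k → E (L + 3)) (m : ℕ) (δ' : ℝ), 2 ≤ m ∧ 0 < δ' ∧
    (∀ x, x ≠ 0 → ∃ i, ⟪a i, x⟫ ≠ 0) ∧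
    (1 - δ) • K ⊆ {x | Nf a m δ' x ≤ 1} ∧ {x | Nf a m δ' x ≤ 1} ⊆ (1 + δ) • K

/-! ### The bodies -/

/-- NICE. -/
def S_NICE : Prop := ∀ (L k : ℕ) (a : Fin k → E (L + 3)) (m : ℕ) (δ : ℝ), 1 ≤ m → 0 < δ →
  (∀ x, x ≠ 0 → ∃ i, ⟪a i, x⟫ ≠ 0) → ∃ (N1 N2 : E (L + 3) → ℝ) (C : ℝ),
    Nice (Nf a m δ) N1 N2 δ C

/-- BODY. -/
def S_BODY : Prop := ∀ (L : ℕ) (N N1 N2 : E (L + 3) → ℝ) (δ C : ℝ), Nice N N1 N2 δ C →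
  ∀ κ : ℝ, 0 ≤ κ → κ ≤ δ → Body (Kb N κ)

/-- NEAR: the perturbed bodies are close. -/
def S_NEAR : Prop := ∀ (L k : ℕ) (a : Fin k → E (L + 3)) (m : ℕ) (δ : ℝ), 1 ≤ m → 0 < δ →
  (∀ x, x ≠ 0 → ∃ i, ⟪a i, x⟫ ≠ 0) → ∀ ε : ℝ, 0 < ε → ε < 1 → ∃ η : ℝ, 0 < η ∧ η ≤ δ ∧
    ∀ τ κ : ℝ, 0 ≤ τ → τ ≤ η → 0 ≤ κ → κ ≤ η →
      (1 - ε) • {x | Nf a m δ x ≤ 1} ⊆ Kb (Nf (Fin.cons (τ • e0 L) a : Fin (k + 1) → _) m δ) κ ∧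
      Kb (Nf (Fin.cons (τ • e0 L) a : Fin (k + 1) → _) m δ) κ ⊆ (1 + ε) • {x | Nf a m δ x ≤ 1}

/-- GAU: sections as integrals. -/
def S_GAU : Prop := ∀ (L : ℕ), ∃ c : ℝ, 0 < c ∧ ∀ (N N1 N2 : E (L + 3) → ℝ) (δ C : ℝ),
  Nice N N1 N2 δ C → ∀ κ : ℝ, 0 ≤ κ → κ ≤ δ → ∀ p t : ℝ,
    A (Kb N κ) (mk 1 (mk p (mk t 0))) = c * AA N κ p t

/-! ### Expansion of the section function -/

/-- PA: the smooth part. -/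
def S_PA : Prop := ∀ (L : ℕ) (N N1 N2 : E (L + 3) → ℝ) (δ C : ℝ), Nice N N1 N2 δ C →
  ∀ κ : ℝ, 0 ≤ κ → κ ≤ δ →
  (∀ p : ℝ, ∃ γ : ℝ, Tendsto (fun t : ℝ => t⁻¹ ^ 2 *
    ∫ q : ℝ × E (L + 1), (et N κ p t q - ee N κ p 0 q - t * ed N N1 κ p q)) (𝓝[≠] 0) (𝓝 γ)) ∧
  (∀ R : ℝ, ∃ (C₀ δ₀ : ℝ), 0 < δ₀ ∧ ∀ p : ℝ, |p| ≤ R → ∀ t : ℝ, |t| ≤ δ₀ →
    |∫ q : ℝ × E (L + 1), (et N κ p t q - ee N κ p 0 q - t * ed N N1 κ p q)| ≤ C₀ * t ^ 2) ∧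
  (∀ R : ℝ, ∃ C₀ : ℝ, ∀ p : ℝ, |p| ≤ R → |∫ q : ℝ × E (L + 1), ed N N1 κ p q| ≤ C₀)

/-- INT: integrability. -/
def S_INT : Prop := ∀ (L : ℕ) (N N1 N2 : E (L + 3) → ℝ) (δ C : ℝ), Nice N N1 N2 δ C →
  ∀ κ : ℝ, 0 ≤ κ → κ ≤ δ →
  (∀ p t : ℝ, Integrable (fun q : ℝ × E (L + 1) => ee N κ p t q)) ∧
  (∀ p : ℝ, ∀ t : ℝ, κ * |t| ≤ δ / 2 → Integrable (fun q : ℝ × E (L + 1) => et N κ p t q)) ∧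
  (∀ p : ℝ, Integrable (fun q : ℝ × E (L + 1) => ed N N1 κ p q)) ∧
  (∀ p t : ℝ, 0 < AA N κ p t) ∧
  (∀ R : ℝ, ∃ c₀ C₀ : ℝ, 0 < c₀ ∧ ∀ p : ℝ, |p| ≤ R → c₀ ≤ AA N κ p 0 ∧ AA N κ p 0 ≤ C₀) ∧
  (∀ p : ℝ, Continuous (fun t => AA N κ p t)) ∧
  Continuous (fun p => AA N κ p 0) ∧ 0 < CN N

/-- PB: the singular part (`σ = 1`: `t > 0`; `σ = -1`: `t < 0`). -/
def S_PB : Prop := ∀ (L : ℕ) (N N1 N2 : E (L + 3) → ℝ) (δ C : ℝ), Nice N N1 N2 δ C →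
  ∀ κ : ℝ, 0 ≤ κ → κ ≤ δ →
  (∀ p : ℝ, p ≠ 0 → p ≠ -1 →
    Tendsto (fun t : ℝ => t⁻¹ ^ 2 * ∫ q : ℝ × E (L + 1), (ee N κ p t q - et N κ p t q)) (𝓝[>] 0)
      (𝓝 (-κ * CN N * ∫ x, bb p 1 x)) ∧
    Tendsto (fun t : ℝ => t⁻¹ ^ 2 * ∫ q : ℝ × E (L + 1), (ee N κ p t q - et N κ p t q)) (𝓝[<] 0)
      (𝓝 (-κ * CN N * ∫ x, bb p (-1) x))) ∧
  (∀ T : Set ℝ, IsCompact T → (0 : ℝ) ∉ T → (-1 : ℝ) ∉ T → ∃ (C₀ δ₀ : ℝ), 0 < δ₀ ∧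
    ∀ p ∈ T, ∀ t : ℝ, |t| ≤ δ₀ →
      |∫ q : ℝ × E (L + 1), (ee N κ p t q - et N κ p t q)| ≤ C₀ * t ^ 2)

/-- PC: the jump. -/
def S_PC : Prop := ∀ p : ℝ, p ≠ 0 → p ≠ -1 →
  (∫ x, bb p 1 x) - (∫ x, bb p (-1) x) = 1 / (2 * p * (1 + p))

/-- PP: the expansion. -/
def S_PP : Prop := ∀ (L : ℕ) (N N1 N2 : E (L + 3) → ℝ) (δ C : ℝ), Nice N N1 N2 δ C →
  ∀ κ : ℝ, 0 ≤ κ → κ ≤ δ →
  (∀ p : ℝ, p ≠ 0 → p ≠ -1 → ∃ β γ : ℝ,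
    Tendsto (fun t : ℝ => t⁻¹ ^ 2 * (AA N κ p t - AA N κ p 0 - β * t)) (𝓝[>] 0)
      (𝓝 (γ - κ * CN N / (4 * p * (1 + p)))) ∧
    Tendsto (fun t : ℝ => t⁻¹ ^ 2 * (AA N κ p t - AA N κ p 0 - β * t)) (𝓝[<] 0)
      (𝓝 (γ + κ * CN N / (4 * p * (1 + p))))) ∧
  (∀ T : Set ℝ, IsCompact T → (0 : ℝ) ∉ T → (-1 : ℝ) ∉ T → ∃ (C₀ δ₀ : ℝ), 0 < δ₀ ∧
    ∀ p ∈ T, ∃ β : ℝ, |β| ≤ C₀ ∧ ∀ t : ℝ, |t| ≤ δ₀ →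
      |AA N κ p t - AA N κ p 0 - β * t| ≤ C₀ * t ^ 2)

/-! ### From the section function to the norm -/

/-- HH: passage to the reciprocal. -/
def S_HH : Prop := ∀ (f : ℝ → ℝ → ℝ) (Z J : ℝ), 0 < Z → (∀ p t, 0 < f p t) →
  (∀ R : ℝ, ∃ c₀ C₀ : ℝ, 0 < c₀ ∧ ∀ p : ℝ, |p| ≤ R → c₀ ≤ f p 0 ∧ f p 0 ≤ C₀) →
  (∀ p : ℝ, p ≠ 0 → p ≠ -1 → ∃ β γ : ℝ,
    Tendsto (fun t : ℝ => t⁻¹ ^ 2 * (f p t - f p 0 - β * t)) (𝓝[>] 0)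
      (𝓝 (γ - J / (4 * p * (1 + p)))) ∧
    Tendsto (fun t : ℝ => t⁻¹ ^ 2 * (f p t - f p 0 - β * t)) (𝓝[<] 0)
      (𝓝 (γ + J / (4 * p * (1 + p))))) →
  (∀ T : Set ℝ, IsCompact T → (0 : ℝ) ∉ T → (-1 : ℝ) ∉ T → ∃ (C₀ δ₀ : ℝ), 0 < δ₀ ∧
    ∀ p ∈ T, ∃ β : ℝ, |β| ≤ C₀ ∧ ∀ t : ℝ, |t| ≤ δ₀ → |f p t - f p 0 - β * t| ≤ C₀ * t ^ 2) →
  (∀ T : Set ℝ, IsCompact T → (0 : ℝ) ∉ T → (-1 : ℝ) ∉ T → ∃ (C₀ δ₀ : ℝ), 0 < δ₀ ∧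
    ∀ p ∈ T, ∀ t : ℝ, 0 < t → t ≤ δ₀ → |Z / f p t + Z / f p (-t) - 2 * (Z / f p 0)| ≤ C₀ * t ^ 2) ∧
  (∀ p : ℝ, p ≠ 0 → p ≠ -1 → ∀ β' C' δ' : ℝ, 0 < δ' → (∀ t : ℝ, 0 < t → t ≤ δ' →
      |β' * t - (Z / f p t - Z / f p (-t)) / 2| ≤ C' * t ^ 2) →
    Tendsto (fun t : ℝ => t⁻¹ ^ 2 * (β' * t - (Z / f p t - Z / f p (-t)) / 2)) (𝓝[>] 0)
      (𝓝 (-(Z * J / (4 * p * (1 + p) * f p 0 ^ 2)))))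

/-- MU: from the measure on the space to a measure in the plane. -/
def S_MU : Prop := ∀ (L : ℕ) (μ : Measure (E (L + 3))), IsFiniteMeasure μ →
  μ (sphere (0 : E (L + 3)) 1)ᶜ = 0 → ∃ M : Measure (ℝ × ℝ), IsFiniteMeasure M ∧
    ∃ β : ℝ → ℝ, ∀ p t : ℝ, 0 ≤ t →
      ((∫ y, max (t - |y.1 + p * y.2|) 0 ∂M) =
        ((∫ v, |⟪(mk 1 (mk p (mk t 0)) : E (L + 3)), v⟫| ∂μ) +
          (∫ v, |⟪(mk 1 (mk p (mk (-t) 0)) : E (L + 3)), v⟫| ∂μ) -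
          2 * (∫ v, |⟪(mk 1 (mk p (mk 0 0)) : E (L + 3)), v⟫| ∂μ)) / 2) ∧
      ((∫ y, SignType.sign (y.1 + p * y.2) * max (t - |y.1 + p * y.2|) 0 ∂M) =
        β p * t - ((∫ v, |⟪(mk 1 (mk p (mk t 0)) : E (L + 3)), v⟫| ∂μ) -
          (∫ v, |⟪(mk 1 (mk p (mk (-t) 0)) : E (L + 3)), v⟫| ∂μ)) / 2)

/-! ### Positive measures in the plane -/

/-- The hypothesis (E). -/
def HypE (M : Measure (ℝ × ℝ)) : Prop :=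
  ∀ T : Set ℝ, IsCompact T → (0 : ℝ) ∉ T → (-1 : ℝ) ∉ T → ∃ (C₀ δ₀ : ℝ), 0 < δ₀ ∧
    ∀ p ∈ T, ∀ t : ℝ, 0 < t → t ≤ δ₀ → (∫ y, max (t - |y.1 + p * y.2|) 0 ∂M) ≤ C₀ * t ^ 2

/-- The hypothesis (O). -/
def HypO (M : Measure (ℝ × ℝ)) (J : ℝ → ℝ) : Prop :=
  ∀ p : ℝ, p ≠ 0 → p ≠ -1 → Tendsto (fun t : ℝ => t⁻¹ ^ 2 *
    ∫ y, SignType.sign (y.1 + p * y.2) * max (t - |y.1 + p * y.2|) 0 ∂M) (𝓝[>] 0) (𝓝 (J p))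

/-- Test functions. -/
structure Test (ψ : ℝ → ℝ) : Prop where
  smooth : ContDiff ℝ (⊤ : ℕ∞) ψ
  supp : HasCompactSupport ψ
  zero : (0 : ℝ) ∉ tsupport ψ
  one : (-1 : ℝ) ∉ tsupport ψ

/-- The homogeneous kernel. -/
noncomputable def KK (ψ : ℝ → ℝ) (z : ℝ) (y : ℝ × ℝ) : ℝ :=
  ∫ p, ψ p * (SignType.sign (y.1 + p * y.2) * |y.1 + p * y.2| ^ (-z))

/-- The directions near the three edges. -/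
def Edge (η : ℝ) : Set (ℝ × ℝ) :=
  {y | |y.2| ≤ η * |y.1| ∨ |y.1| ≤ η * |y.2| ∨ |y.1 - y.2| ≤ η * |y.2|}

/-- V1: the kernel. -/
def S_V1 : Prop := ∀ z x : ℝ, 0 < z → z < 1 → x ≠ 0 →
  IntegrableOn (fun t : ℝ => t ^ (-2 - z) * max (t - |x|) 0) (Ioi 0) ∧
  ∫ t in Ioi (0 : ℝ), t ^ (-2 - z) * max (t - |x|) 0 = |x| ^ (-z) / (z * (1 + z))

/-- V2: Abelian lemma. -/
def S_V2 : Prop := ∀ (f : ℝ → ℝ) (C δ f0 : ℝ), Measurable f → 0 < δ →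
  (∀ t, 0 < t → t ≤ δ → |f t| ≤ C) → (∀ t, δ ≤ t → |f t| ≤ C / t) →
  Tendsto f (𝓝[>] 0) (𝓝 f0) →
  Tendsto (fun z : ℝ => (1 - z) * ∫ t in Ioi (0 : ℝ), t ^ (-z) * f t) (𝓝[<] 1) (𝓝 f0)

/-- V3: uniform bound for the kernel. -/
def S_V3 : Prop := ∀ ψ : ℝ → ℝ, Test ψ → ∃ C : ℝ, ∀ z : ℝ, 1 / 2 ≤ z → z < 1 →
  ∀ y : ℝ × ℝ, y ≠ 0 → |KK ψ z y| ≤ C * ‖y‖ ^ (-z)

/-- V4: the kernel is small near the edges. -/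
def S_V4 : Prop := ∀ ψ : ℝ → ℝ, Test ψ → (∫ p, ψ p) = 0 → (∫ p, ψ p / p) = 0 →
  (∫ p, ψ p / (p + 1)) = 0 → ∀ ε : ℝ, 0 < ε → ∃ η : ℝ, 0 < η ∧ η < 1 / 2 ∧
    ∀ z : ℝ, 1 - η < z → z < 1 → ∀ y : ℝ × ℝ, y ≠ 0 → y ∈ Edge η → |KK ψ z y| ≤ ε * ‖y‖ ^ (-z)

/-- V5: no mass of degree `-1` off the edges. -/
def S_V5 : Prop := ∀ M : Measure (ℝ × ℝ), IsFiniteMeasure M → HypE M → ∀ η : ℝ, 0 < η → η < 1 / 2 →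
  IntegrableOn (fun y : ℝ × ℝ => ‖y‖⁻¹) (Edge η)ᶜ M

/-- V6: bound for the mass. -/
def S_V6 : Prop := ∀ M : Measure (ℝ × ℝ), IsFiniteMeasure M → HypE M →
  M {0} = 0 ∧ (∀ p : ℝ, p ≠ 0 → p ≠ -1 → M {y | y.1 + p * y.2 = 0} = 0) ∧
  ∃ C : ℝ, ∀ z : ℝ, 1 / 2 ≤ z → z < 1 →
    Integrable (fun y : ℝ × ℝ => ‖y‖ ^ (-z)) M ∧ (1 - z) * (∫ y, ‖y‖ ^ (-z) ∂M) ≤ C

/-- V7: the orthogonality relation. -/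
def S_V7 : Prop := ∀ (M : Measure (ℝ × ℝ)) (J : ℝ → ℝ), IsFiniteMeasure M → HypE M → HypO M J →
  ContinuousOn J {p | p ≠ 0 ∧ p ≠ -1} → ∀ ψ : ℝ → ℝ, Test ψ → (∫ p, ψ p) = 0 →
  (∫ p, ψ p / p) = 0 → (∫ p, ψ p / (p + 1)) = 0 → (∫ p, ψ p * J p) = 0

/-- V8: from the orthogonality relation to the formula for `J`. -/
def S_V8 : Prop := ∀ J : ℝ → ℝ, ContinuousOn J {p | p ≠ 0 ∧ p ≠ -1} →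
  (∀ ψ : ℝ → ℝ, Test ψ → (∫ p, ψ p) = 0 → (∫ p, ψ p / p) = 0 → (∫ p, ψ p / (p + 1)) = 0 →
    (∫ p, ψ p * J p) = 0) →
  ∃ c₀ c₁ c₂ : ℝ, ∀ p : ℝ, p ≠ 0 → p ≠ -1 → J p = c₀ + c₁ / p + c₂ / (p + 1)

/-! ### Conclusion -/

/-- LIM: the limit `κ → 0`. -/
def S_LIM : Prop := ∀ (L : ℕ) (N N1 N2 : E (L + 3) → ℝ) (δ C : ℝ), Nice N N1 N2 δ C →
  ∀ p : ℝ, Tendsto (fun κ : ℝ => AA N κ p 0) (𝓝[>] 0) (𝓝 (AA N 0 p 0))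

/-- END: the contradiction. -/
def S_END : Prop := ∀ (L k : ℕ) (a : Fin k → E (L + 3)) (m : ℕ) (δ τ : ℝ), 2 ≤ m → 0 < δ → 0 < τ →
  (∀ x, x ≠ 0 → ∃ i, ⟪a i, x⟫ ≠ 0) →
  (∃ c₀ c₁ c₂ : ℝ, ∀ p : ℝ, p ≠ 0 → p ≠ -1 →
    (AA (Nf a m δ) 0 p 0)⁻¹ ^ 2 = c₀ + c₁ * p + c₂ * p ^ 2) →
  (∃ c₀ c₁ c₂ : ℝ, ∀ p : ℝ, p ≠ 0 → p ≠ -1 →
    (AA (Nf (Fin.cons (τ • e0 L) a : Fin (k + 1) → _) m δ) 0 p 0)⁻¹ ^ 2 =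
      c₀ + c₁ * p + c₂ * p ^ 2) → False

/-- POLY: the key lemma. -/
def S_POLY : Prop := ∀ (L : ℕ) (N N1 N2 : E (L + 3) → ℝ) (δ C : ℝ), Nice N N1 N2 δ C →
  ∀ κ : ℝ, 0 < κ → κ ≤ δ → PZ (Kb N κ) → ∃ c₀ c₁ c₂ : ℝ, ∀ p : ℝ, p ≠ 0 → p ≠ -1 →
    (AA N κ p 0)⁻¹ ^ 2 = c₀ + c₁ * p + c₂ * p ^ 2

/-- MAIN: not all bodies near an explicit body have the property. -/
def S_MAIN : Prop := ∀ (L k : ℕ) (a : Fin k → E (L + 3)) (m : ℕ) (δ : ℝ), 2 ≤ m → 0 < δ →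
  (∀ x, x ≠ 0 → ∃ i, ⟪a i, x⟫ ≠ 0) → ∀ ε : ℝ, 0 < ε → ε < 1 →
  ∃ K : Set (E (L + 3)), Body K ∧ ¬ PZ K ∧ (1 - ε) • {x | Nf a m δ x ≤ 1} ⊆ K ∧
    K ⊆ (1 + ε) • {x | Nf a m δ x ≤ 1}

/-- RES: the residual statement. -/
def S_RES : Prop := ∀ n : ℕ, 3 ≤ n → ∀ᶠ K in residual
  {K : ConvexBody (EuclideanSpace ℝ (Fin n)) // ∀ x ∈ (K : Set (EuclideanSpace ℝ (Fin n))),
    -x ∈ (K : Set (EuclideanSpace ℝ (Fin n)))},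
  ¬ ∃ μ : MeasureTheory.Measure (EuclideanSpace ℝ (Fin n)), MeasureTheory.IsFiniteMeasure μ ∧
    μ (Metric.sphere (0 : EuclideanSpace ℝ (Fin n)) 1)ᶜ = 0 ∧
    ∀ u : EuclideanSpace ℝ (Fin n), ‖u‖ = 1 →
      (MeasureTheory.Measure.hausdorffMeasure ((n : ℝ) - 1)
        ((K.1 : Set (EuclideanSpace ℝ (Fin n))) ∩ {x | inner ℝ u x = 0})).toReal *
      (∫ v, |inner ℝ u v| ∂μ) = 1

end Pool.Agent.J4H12.PZ
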